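import Pool.Agent.DiracHajos.Proof

/-!
# The gadget on ten vertices
-/

set_option autoImplicit false
set_option maxRecDepth 100000
set_option synthInstance.maxSize 100000
set_option synthInstance.maxHeartbeats 4000000
set_option maxHeartbeats 4000000

namespace Pool.Agent.DiracHajos

/-- the 25 edges; the third entry codes, in base 4, a colouring with 4 colours of the graph
    without
this edge -/
def edges : List (ℕ × ℕ × ℕ) :=
  [(0, 1, 577104), (0, 2, 925252), (0, 3, 886564), (0, 4, 826468), (0, 5, 824164), (1, 2, 577108),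
    (1, 4, 314788), (1, 7, 804772), (2, 5, 822116), (2, 6, 862116), (2, 8, 183908), (2, 9,
    577124),
    (3, 4, 312996), (3, 5, 821092), (3, 7, 296868), (3, 8, 118372), (3, 9, 314980), (4, 5,
    823140),
    (4, 6, 866212), (4, 7, 822884), (5, 6, 858020), (6, 7, 853924), (7, 8, 249444), (7, 9,
    839268),
    (8, 9, 52836)]

/-- the graph with ten vertices and 25 edges -/
def G10 : SimpleGraph (Fin 10) where
  Adj a b := (edges.any fun e => (e.1 == a.1 && e.2.1 == b.1) || (e.1 == b.1 && e.2.1 == a.1)) =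
    true
  symm := ⟨by decide⟩
  loopless := ⟨by decide⟩

instance : DecidableRel G10.Adj := fun a b => by
  unfold G10
  exact inferInstance

/-- the colour of `a` in the colouring with code `t` -/
def colour (t : ℕ) (a : Fin 10) : Fin 4 := ⟨t / 4 ^ a.1 % 4, Nat.mod_lt _ (by decide)⟩

theorem edges_ok : ∀ e ∈ edges, ∀ f ∈ edges, (e.1 = f.1 ∧ e.2.1 = f.2.1) ∨
    e.2.2 / 4 ^ f.1 % 4 ≠ e.2.2 / 4 ^ f.2.1 % 4 := by decide

theorem not_col4 : ∀ c0 : Fin 4, ∀ c1 : Fin 4, c0 ≠ c1 → ∀ c2 : Fin 4, c0 ≠ c2 → c1 ≠ c2 → ∀ c3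
    : Fin 4, c0 ≠ c3 → ∀ c4 : Fin 4, c0 ≠ c4 → c1 ≠ c4 → c3 ≠ c4 → ∀ c5 : Fin 4, c0 ≠ c5 → c2 ≠
    c5 → c3 ≠ c5 → c4 ≠ c5 → ∀ c6 : Fin 4, c2 ≠ c6 → c4 ≠ c6 → c5 ≠ c6 → ∀ c7 : Fin 4, c1 ≠ c7 →
    c3 ≠ c7 → c4 ≠ c7 → c6 ≠ c7 → ∀ c8 : Fin 4, c2 ≠ c8 → c3 ≠ c8 → c7 ≠ c8 → ∀ c9 : Fin 4, c2 ≠
    c9 → c3 ≠ c9 → c7 ≠ c9 → c8 ≠ c9 → False := by decide

theorem force4 : ∀ c0 : Fin 4, ∀ c1 : Fin 4, c0 ≠ c1 → ∀ c2 : Fin 4, c0 ≠ c2 → c1 = c2 → ∀ c3 :
    Fin 4, ∀ c4 : Fin 4, c0 ≠ c4 → c1 ≠ c4 → c3 ≠ c4 → ∀ c5 : Fin 4, c0 ≠ c5 → c2 ≠ c5 → c3 ≠ c5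
    → c4 ≠ c5 → ∀ c6 : Fin 4, c2 ≠ c6 → c4 ≠ c6 → c5 ≠ c6 → ∀ c7 : Fin 4, c1 ≠ c7 → c3 ≠ c7 → c4
    ≠ c7 → c6 ≠ c7 → ∀ c8 : Fin 4, c2 ≠ c8 → c3 ≠ c8 → c7 ≠ c8 → ∀ c9 : Fin 4, c2 ≠ c9 → c3 ≠ c9
    → c7 ≠ c9 → c8 ≠ c9 → c3 = c1 := by decide


theorem adj_iff (a b : Fin 10) : G10.Adj a b ↔ ∃ e ∈ edges, (e.1 = a.1 ∧ e.2.1 = b.1) ∨
    (e.1 = b.1 ∧ e.2.1 = a.1) := by
  change (edges.any fun e => (e.1 == a.1 && e.2.1 == b.1) || (e.1 == b.1 && e.2.1 == a.1)) =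
    true ↔ _
  simp [List.any_eq_true]

theorem crit10 : Crit 4 G10 := by
  refine ⟨⟨0⟩, ?_, ?_, by decide⟩
  · rintro ⟨c, hc⟩
    exact not_col4 (c 0) (c 1) (hc 0 1 (by decide)) (c 2) (hc 0 2 (by decide)) (hc 1 2 (by decide)) (c 3) (hc 0 3
    (by decide)) (c 4) (hc 0 4 (by decide)) (hc 1 4 (by decide)) (hc 3 4 (by decide)) (c 5) (hc
    0 5 (by decide)) (hc 2 5 (by decide)) (hc 3 5 (by decide)) (hc 4 5 (by decide)) (c 6) (hc 2
    6 (by decide)) (hc 4 6 (by decide)) (hc 5 6 (by decide)) (c 7) (hc 1 7 (by decide)) (hc 3 7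
    (by decide)) (hc 4 7 (by decide)) (hc 6 7 (by decide)) (c 8) (hc 2 8 (by decide)) (hc 3 8
    (by decide)) (hc 7 8 (by decide)) (c 9) (hc 2 9 (by decide)) (hc 3 9 (by decide)) (hc 7 9
    (by decide)) (hc 8 9 (by decide))
  · intro u v huv
    obtain ⟨e, he, huv'⟩ := (adj_iff u v).1 huv
    refine ⟨fun a => colour e.2.2 a, ?_⟩
    rintro a b ⟨hab, hs⟩ hcol
    obtain ⟨f, hf, hab'⟩ := (adj_iff a b).1 hab
    have hcol' : e.2.2 / 4 ^ a.1 % 4 = e.2.2 / 4 ^ b.1 % 4 := congrArg Fin.val hcol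
    rcases edges_ok e he f hf with ⟨h1, h2⟩ | h1
    · apply hs
      rw [Sym2.eq_iff]
      rcases huv' with ⟨h3, h4⟩ | ⟨h3, h4⟩ <;> rcases hab' with ⟨h5, h6⟩ | ⟨h5, h6⟩
      · left
        exact ⟨Fin.ext (by omega), Fin.ext (by omega)⟩
      · right
        exact ⟨Fin.ext (by omega), Fin.ext (by omega)⟩
      · right
        exact ⟨Fin.ext (by omega), Fin.ext (by omega)⟩
      · left
        exact ⟨Fin.ext (by omega), Fin.ext (by omega)⟩
    · rcases hab' with ⟨h5, h6⟩ | ⟨h5, h6⟩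
      · rw [h5, h6] at h1
        exact h1 hcol'
      · rw [h5, h6] at h1
        exact h1 hcol'.symm

theorem gadget43 : Gadget 4 3 := by
  refine ⟨Fin 10, inferInstance, G10, {0, 1, 2}, 0, 3, 1, 2, crit10, ?_, by decide, by decide,
    by decide, by decide, by decide, by decide, by decide, by decide, ?_⟩
  · rw [SimpleGraph.isNClique_iff]
    refine ⟨?_, by decide⟩
    intro a ha b hb hab
    rw [Finset.mem_coe] at ha hb
    revert a b
    decide
  · intro c hc hzw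
    refine (force4 (c 0) (c 1) (hc 0 1 (by decide) (by decide) (by decide)) (c 2) (hc 0 2 (by decide) (by decide)
    (by decide)) hzw (c 3) (c 4) (hc 0 4 (by decide) (by decide) (by decide)) (hc 1 4 (by
    decide) (by decide) (by decide)) (hc 3 4 (by decide) (by decide) (by decide)) (c 5) (hc 0 5
    (by decide) (by decide) (by decide)) (hc 2 5 (by decide) (by decide) (by decide)) (hc 3 5
    (by decide) (by decide) (by decide)) (hc 4 5 (by decide) (by decide) (by decide)) (c 6) (hc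
    2 6 (by decide) (by decide) (by decide)) (hc 4 6 (by decide) (by decide) (by decide)) (hc 5
    6 (by decide) (by decide) (by decide)) (c 7) (hc 1 7 (by decide) (by decide) (by decide))
    (hc 3 7 (by decide) (by decide) (by decide)) (hc 4 7 (by decide) (by decide) (by decide))
    (hc 6 7 (by decide) (by decide) (by decide)) (c 8) (hc 2 8 (by decide) (by decide) (by
    decide)) (hc 3 8 (by decide) (by decide) (by decide)) (hc 7 8 (by decide) (by decide) (by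
    decide)) (c 9) (hc 2 9 (by decide) (by decide) (by decide)) (hc 3 9 (by decide) (by decide)
    (by decide)) (hc 7 9 (by decide) (by decide) (by decide)) (hc 8 9 (by decide) (by decide)
    (by decide)))

/-- gadgets for all numbers -/
theorem gadget_all (n h : ℕ) (h3 : 3 ≤ h) (hn : h + 1 ≤ n) : Gadget n h := by
  obtain ⟨i, rfl⟩ := Nat.exists_eq_add_of_le' h3
  obtain ⟨j, rfl⟩ := Nat.exists_eq_add_of_le' hn
  induction i with
  | zero =>
    induction j with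
    | zero => exact gadget43
    | succ j ih =>
      have := (ih (by omega)).step
      have e : j + (0 + 3 + 1) + 1 = j + 1 + (0 + 3 + 1) := by omega
      rwa [e] at this
  | succ i ih =>
    have := (ih (by omega) (by omega)).step'
    have e1 : j + (i + 3 + 1) + 1 = j + (i + 1 + 3 + 1) := by omega
    have e2 : i + 3 + 1 = i + 1 + 3 := by omega
    rwa [e1, e2] at this

end Pool.Agent.DiracHajos
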