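import Mathlib

/-!
# Dirac's generalization of the construction of Hajos

Definitions: critical graphs, and the graph obtained from two graphs by identifying two complete
`h`-graphs, deleting the edges `x₁y₁`, `x₂y₂` and adding the edge `y₁y₂`.
-/

set_option autoImplicit false

namespace Pool.Agent.DiracHajos

/-- `G` is `k`-critical: its chromatic number is `k`, and every proper subgraph (fewer vertices or
fewer edges) has a smaller chromatic number. -/
def IsCritical (k : ℕ) {V : Type} (G : SimpleGraph V) : Prop :=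
  G.chromaticNumber = k ∧ ∀ G' : G.Subgraph, G' ≠ ⊤ → G'.coe.chromaticNumber < k

/-- The vertex set after the identification of the vertices of `H₂` with vertices of the first
graph: all vertices of the first graph, and the vertices of the second graph outside `H₂`. -/
abbrev Glued (V₁ : Type) {V₂ : Type} (H₂ : Finset V₂) : Type := V₁ ⊕ {v : V₂ // v ∉ H₂}

/-- The map of the first vertex set into the glued one. -/
def left {V₁ V₂ : Type} (H₂ : Finset V₂) : V₁ ↪ Glued V₁ H₂ := ⟨Sum.inl, Sum.inl_injective⟩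

open Classical in
/-- The map of the second vertex set into the glued one: a vertex `φ v` of `H₂` goes to the
vertex `v` of the first graph, any other vertex goes to itself. -/
noncomputable def rightFun {V₁ V₂ : Type} {H₁ : Finset V₁} {H₂ : Finset V₂} (φ : H₁ ≃ H₂)
    (v : V₂) : Glued V₁ H₂ :=
  if h : v ∈ H₂ then Sum.inl (φ.symm ⟨v, h⟩ : V₁) else Sum.inr ⟨v, h⟩

theorem rightFun_injective {V₁ V₂ : Type} {H₁ : Finset V₁} {H₂ : Finset V₂} (φ : H₁ ≃ H₂) :
    Function.Injective (rightFun φ) := by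
  intro a b hab
  unfold rightFun at hab
  by_cases ha : a ∈ H₂ <;> by_cases hb : b ∈ H₂
  · rw [dif_pos ha, dif_pos hb] at hab
    have h1 := Sum.inl_injective hab
    have h2 := φ.symm.injective (Subtype.ext h1)
    exact congrArg Subtype.val h2
  · rw [dif_pos ha, dif_neg hb] at hab
    exact absurd hab (by simp)
  · rw [dif_neg ha, dif_pos hb] at hab
    exact absurd hab (by simp)
  · rw [dif_neg ha, dif_neg hb] at hab
    exact congrArg Subtype.val (Sum.inr_injective hab)

/-- The map of the second vertex set into the glued one, as an embedding. -/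
noncomputable def right {V₁ V₂ : Type} {H₁ : Finset V₁} {H₂ : Finset V₂} (φ : H₁ ≃ H₂) :
    V₂ ↪ Glued V₁ H₂ := ⟨rightFun φ, rightFun_injective φ⟩

/-- Dirac's construction: `φ` identifies the vertices of `H₁` and `H₂`, the edges `x₁y₁` and
`x₂y₂` are deleted, and the edge `y₁y₂` is added. -/
noncomputable def dirac {V₁ V₂ : Type} (G₁ : SimpleGraph V₁) (G₂ : SimpleGraph V₂)
    {H₁ : Finset V₁} {H₂ : Finset V₂} (φ : H₁ ≃ H₂) (x₁ y₁ : V₁) (x₂ y₂ : V₂) :
    SimpleGraph (Glued V₁ H₂) :=
  (G₁.deleteEdges {s(x₁, y₁)}).map (left H₂) ⊔ (G₂.deleteEdges {s(x₂, y₂)}).map (right φ) ⊔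
    SimpleGraph.edge (left H₂ y₁) (right φ y₂)

/-- For the numbers `k` and `h`, Dirac's construction always gives a `k`-critical graph. -/
def Preserves (k h : ℕ) : Prop :=
  ∀ (V₁ V₂ : Type) [Fintype V₁] [Fintype V₂] (G₁ : SimpleGraph V₁) (G₂ : SimpleGraph V₂),
    IsCritical k G₁ → IsCritical k G₂ →
    ∀ (H₁ : Finset V₁) (H₂ : Finset V₂), G₁.IsNClique h H₁ → G₂.IsNClique h H₂ →
    ∀ (φ : H₁ ≃ H₂) (x₁ : H₁) (x₂ : H₂) (y₁ : V₁) (y₂ : V₂), φ x₁ = x₂ →
      y₁ ∉ H₁ → y₂ ∉ H₂ → G₁.Adj x₁ y₁ → G₂.Adj x₂ y₂ →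
      IsCritical k (dirac G₁ G₂ φ x₁ y₁ x₂ y₂)

end Pool.Agent.DiracHajos
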