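import Pool.Agent.DiracHajos.Defs

/-!
# Failure of criticality: forcing gadgets, cones over them, and the gluing argument
-/

set_option autoImplicit false

namespace Pool.Agent.DiracHajos

/-- there is a proper colouring of a relation with `n` colours -/
def Col (n : ℕ) {V : Type} (R : V → V → Prop) : Prop := ∃ c : V → Fin n, ∀ a b, R a b → c a ≠ c b

theorem Col.mono {n : ℕ} {V : Type} {R S : V → V → Prop} (h : Col n R) (hs : ∀ a b, S a b → R a b) :
    Col n S := by
  obtain ⟨c, hc⟩ := h
  exact ⟨c, fun a b hab => hc a b (hs a b hab)⟩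

theorem col_iff {n : ℕ} {V : Type} (G : SimpleGraph V) : Col n G.Adj ↔ G.Colorable n := by
  constructor
  · rintro ⟨c, hc⟩
    exact ⟨SimpleGraph.Coloring.mk c (fun {a b} hab => hc a b hab)⟩
  · rintro ⟨c⟩
    exact ⟨c, fun a b hab => c.valid hab⟩

/-- the working form of being `(n+1)`-critical -/
structure Crit (n : ℕ) {V : Type} (G : SimpleGraph V) : Prop where
  ne : Nonempty V
  not_col : ¬ Col n G.Adj
  edge : ∀ u v, G.Adj u v → Col n (fun a b => G.Adj a b ∧ s(a, b) ≠ s(u, v))
  vert : ∀ u, ∃ v, G.Adj u v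

theorem Crit.del {n : ℕ} {V : Type} {G : SimpleGraph V} (h : Crit n G) (u : V) :
    Col n (fun a b => G.Adj a b ∧ a ≠ u ∧ b ≠ u) := by
  obtain ⟨v, hv⟩ := h.vert u
  refine (h.edge u v hv).mono ?_
  rintro a b ⟨hab, ha, hb⟩
  refine ⟨hab, ?_⟩
  intro hs
  rcases Sym2.eq_iff.1 hs with ⟨h1, h2⟩ | ⟨h1, h2⟩
  · exact ha h1
  · exact hb h2

theorem Crit.col_succ {n : ℕ} {V : Type} {G : SimpleGraph V} (h : Crit n G) :
    Col (n + 1) G.Adj := by
  classical
  obtain ⟨u⟩ := h.ne
  obtain ⟨c, hc⟩ := h.del u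
  refine ⟨fun v => if v = u then Fin.last n else (c v).castSucc, ?_⟩
  intro a b hab
  by_cases ha : a = u <;> by_cases hb : b = u
  · exact absurd (ha.trans hb.symm) hab.ne
  · simp only [ha, hb, if_true, if_false]
    exact (Fin.castSucc_lt_last _).ne'
  · simp only [ha, hb, if_true, if_false]
    exact (Fin.castSucc_lt_last _).ne
  · simp only [ha, hb, if_false]
    intro h'
    exact hc a b ⟨hab, ha, hb⟩ (Fin.castSucc_injective n h')

theorem Crit.isCritical {n : ℕ} {V : Type} {G : SimpleGraph V} (h : Crit n G) :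
    IsCritical (n + 1) G := by
  constructor
  · have h1 : G.Colorable (n + 1) := (col_iff G).1 h.col_succ
    have h2 : ¬ G.Colorable n := fun h' => h.not_col ((col_iff G).2 h')
    apply le_antisymm h1.chromaticNumber_le
    by_contra hlt
    push Not at hlt
    have h3 : G.chromaticNumber ≤ n := by
      have : G.chromaticNumber < ((n + 1 : ℕ) : ℕ∞) := hlt
      rw [Nat.cast_succ] at this
      exact Order.le_of_lt_add_one this
    exact h2 (SimpleGraph.chromaticNumber_le_iff_colorable.1 h3)
  · intro G' hG'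
    have key : Col n G'.coe.Adj := by
      by_cases hv : ∃ u, u ∉ G'.verts
      · obtain ⟨u, hu⟩ := hv
        obtain ⟨c, hc⟩ := h.del u
        refine ⟨fun a => c a.1, fun a b hab => hc a.1 b.1 ⟨G'.adj_sub hab, ?_, ?_⟩⟩
        · intro h'
          exact hu (h' ▸ a.2)
        · intro h'
          exact hu (h' ▸ b.2)
      · push Not at hv
        by_cases he : ∃ u v, G.Adj u v ∧ ¬ G'.Adj u v
        · obtain ⟨u, v, huv, hn⟩ := he
          obtain ⟨c, hc⟩ := h.edge u v huv
          refine ⟨fun a => c a.1, fun a b hab => hc a.1 b.1 ⟨G'.adj_sub hab, ?_⟩⟩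
          intro hs
          rcases Sym2.eq_iff.1 hs with ⟨h1, h2⟩ | ⟨h1, h2⟩
          · apply hn
            rw [← h1, ← h2]
            exact hab
          · apply hn
            rw [← h1, ← h2]
            exact SimpleGraph.Subgraph.Adj.symm hab
        · push Not at he
          exfalso
          apply hG'
          ext a b
          · simp [hv a]
          · rw [SimpleGraph.Subgraph.top_adj]
            exact ⟨fun h' => G'.adj_sub h', fun h' => he a b h'⟩
    have h1 := ((col_iff _).1 key).chromaticNumber_le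
    refine lt_of_le_of_lt h1 ?_
    exact_mod_cast Nat.lt_succ_self n

/-- The gadget: an `(n+1)`-critical graph with a complete `h`-graph containing `x, z, w` and an edge
`xy` with `y` outside, such that every `n`-colouring of the graph without the edges `xy`, `zw`
which gives `z` and `w` the same colour also gives this colour to `y`. -/
def Gadget (n h : ℕ) : Prop :=
  ∃ (V : Type) (_ : Fintype V) (G : SimpleGraph V) (H : Finset V) (x y z w : V),
    Crit n G ∧ G.IsNClique h H ∧ x ∈ H ∧ z ∈ H ∧ w ∈ H ∧ x ≠ z ∧ x ≠ w ∧ z ≠ w ∧ y ∉ H ∧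
    G.Adj x y ∧
    ∀ c : V → Fin n, (∀ a b, G.Adj a b → s(a, b) ≠ s(x, y) → s(a, b) ≠ s(z, w) → c a ≠ c b) →
      c z = c w → c y = c z

/-- the cone over a graph -/
def cone {V : Type} (G : SimpleGraph V) : SimpleGraph (Option V) where
  Adj a b := match a, b with
    | none, none => False
    | none, some _ => True
    | some _, none => True
    | some a, some b => G.Adj a b
  symm := ⟨by
    intro a b h
    cases a <;> cases b <;> simp_all [G.adj_comm]⟩
  loopless := ⟨by
    intro a
    cases a <;> simp⟩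

theorem cone_some {V : Type} (G : SimpleGraph V) (a b : V) :
    (cone G).Adj (some a) (some b) ↔ G.Adj a b := Iff.rfl

theorem cone_none {V : Type} (G : SimpleGraph V) (b : V) : (cone G).Adj none (some b) := trivial

theorem cone_none' {V : Type} (G : SimpleGraph V) (b : V) : (cone G).Adj (some b) none := trivial

/-- removing the colour of the apex -/
theorem squeeze {n : ℕ} {V : Type} (c : Option V → Fin (n + 1)) (hc : ∀ v, c none ≠ c (some v)) :
    ∃ d : V → Fin n, ∀ a b, d a = d b ↔ c (some a) = c (some b) := by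
  have h1 : ∀ v, ∃ i : Fin n, (c none).succAbove i = c (some v) := fun v =>
    Fin.exists_succAbove_eq (hc v).symm
  choose d hd using h1
  refine ⟨d, fun a b => ?_⟩
  rw [← hd a, ← hd b]
  exact (Fin.succAbove_right_injective.eq_iff).symm

theorem Crit.cone {n : ℕ} {V : Type} {G : SimpleGraph V} (h : Crit n G) :
    Crit (n + 1) (cone G) := by
  classical
  refine ⟨⟨none⟩, ?_, ?_, ?_⟩
  · rintro ⟨c, hc⟩
    obtain ⟨d, hd⟩ := squeeze c (fun v => hc none (some v) (cone_none G v))
    exact h.not_col ⟨d, fun a b hab hab' => hc (some a) (some b) hab ((hd a b).1 hab')⟩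
  · have key : ∀ v : V, Col (n + 1)
        (fun a b => (DiracHajos.cone G).Adj a b ∧ s(a, b) ≠ s(none, some v)) := by
      intro v
      obtain ⟨c, hc⟩ := h.del v
      refine ⟨fun a => match a with
        | none => Fin.last n
        | some a => if a = v then Fin.last n else (c a).castSucc, ?_⟩
      rintro (_ | a) (_ | b) ⟨hab, hs⟩
      · exact absurd hab (SimpleGraph.irrefl _)
      · by_cases hb : b = v
        · subst hb
          exact absurd rfl hs
        · simp only [hb, if_false]
          exact (Fin.castSucc_lt_last _).ne'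
      · by_cases ha : a = v
        · subst ha
          exact absurd Sym2.eq_swap hs
        · simp only [ha, if_false]
          exact (Fin.castSucc_lt_last _).ne
      · have hab' : G.Adj a b := hab
        by_cases ha : a = v <;> by_cases hb : b = v
        · exact absurd (ha.trans hb.symm) hab'.ne
        · simp only [ha, hb, if_true, if_false]
          exact (Fin.castSucc_lt_last _).ne'
        · simp only [ha, hb, if_true, if_false]
          exact (Fin.castSucc_lt_last _).ne
        · simp only [ha, hb, if_false]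
          intro h'
          exact hc a b ⟨hab', ha, hb⟩ (Fin.castSucc_injective n h')
    rintro (_ | u) (_ | v) huv
    · exact absurd huv (SimpleGraph.irrefl _)
    · exact key v
    · refine (key u).mono ?_
      rintro a b ⟨hab, hs⟩
      refine ⟨hab, ?_⟩
      rw [Sym2.eq_swap (a := none)]
      exact hs
    · obtain ⟨c, hc⟩ := h.edge u v huv
      refine ⟨fun a => match a with
        | none => Fin.last n
        | some a => (c a).castSucc, ?_⟩
      rintro (_ | a) (_ | b) ⟨hab, hs⟩
      · exact absurd hab (SimpleGraph.irrefl _)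
      · exact (Fin.castSucc_lt_last _).ne'
      · exact (Fin.castSucc_lt_last _).ne
      · intro h'
        refine hc a b ⟨hab, ?_⟩ (Fin.castSucc_injective n h')
        intro hs'
        apply hs
        rcases Sym2.eq_iff.1 hs' with ⟨h1, h2⟩ | ⟨h1, h2⟩
        · rw [h1, h2]
        · rw [h1, h2, Sym2.eq_swap]
  · rintro (_ | u)
    · obtain ⟨v⟩ := h.ne
      exact ⟨some v, cone_none G v⟩
    · exact ⟨none, cone_none' G u⟩

theorem some_ne {V : Type} {a b c d : V} (h : s(a, b) ≠ s(c, d)) :
    s(some a, some b) ≠ s(some c, some d) := by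
  intro h'
  apply h
  rcases Sym2.eq_iff.1 h' with ⟨h1, h2⟩ | ⟨h1, h2⟩
  · rw [Option.some_injective _ h1, Option.some_injective _ h2]
  · rw [Option.some_injective _ h1, Option.some_injective _ h2, Sym2.eq_swap]

/-- the forcing property passes to the cone -/
theorem force_cone {n : ℕ} {V : Type} {G : SimpleGraph V} {x y z w : V}
    (hf : ∀ c : V → Fin n,
      (∀ a b, G.Adj a b → s(a, b) ≠ s(x, y) → s(a, b) ≠ s(z, w) → c a ≠ c b) →
      c z = c w → c y = c z) (c : Option V → Fin (n + 1))
    (hc : ∀ a b, (cone G).Adj a b → s(a, b) ≠ s(some x, some y) → s(a, b) ≠ s(some z, some w) →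
      c a ≠ c b) (hzw : c (some z) = c (some w)) : c (some y) = c (some z) := by
  obtain ⟨d, hd⟩ := squeeze c (fun v => hc none (some v) (cone_none G v)
    (by simp) (by simp))
  rw [← hd]
  apply hf d
  · intro a b hab h1 h2 h3
    exact hc (some a) (some b) hab (some_ne h1) (some_ne h2) ((hd a b).1 h3)
  · rw [hd]
    exact hzw

theorem Gadget.step {n h : ℕ} (hg : Gadget n h) : Gadget (n + 1) h := by
  classical
  obtain ⟨V, _, G, H, x, y, z, w, hcr, hcl, hx, hz, hw, hxz, hxw, hzw, hy, hxy, hf⟩ := hg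
  refine ⟨Option V, inferInstance, cone G, H.map Function.Embedding.some, some x, some y, some z,
    some w, hcr.cone, ?_, ?_, ?_, ?_, ?_, ?_, ?_, ?_, ?_, ?_⟩
  · rw [SimpleGraph.isNClique_iff] at hcl ⊢
    refine ⟨?_, by rw [Finset.card_map]; exact hcl.2⟩
    intro a ha b hb hab
    rw [Finset.mem_coe, Finset.mem_map] at ha hb
    obtain ⟨a', ha', rfl⟩ := ha
    obtain ⟨b', hb', rfl⟩ := hb
    exact hcl.1 ha' hb' (fun h' => hab (by rw [h']))
  · exact Finset.mem_map_of_mem Function.Embedding.some hx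
  · exact Finset.mem_map_of_mem Function.Embedding.some hz
  · exact Finset.mem_map_of_mem Function.Embedding.some hw
  · exact fun h' => hxz (Option.some_injective _ h')
  · exact fun h' => hxw (Option.some_injective _ h')
  · exact fun h' => hzw (Option.some_injective _ h')
  · rw [Finset.mem_map]
    rintro ⟨a, ha, h'⟩
    rw [← Option.some_injective _ h'] at hy
    exact hy ha
  · exact hxy
  · exact fun c hc h' => force_cone hf c hc h'

theorem Gadget.step' {n h : ℕ} (hg : Gadget n h) : Gadget (n + 1) (h + 1) := by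
  classical
  obtain ⟨V, _, G, H, x, y, z, w, hcr, hcl, hx, hz, hw, hxz, hxw, hzw, hy, hxy, hf⟩ := hg
  refine ⟨Option V, inferInstance, cone G, Finset.insertNone H, some x, some y, some z,
    some w, hcr.cone, ?_, ?_, ?_, ?_, ?_, ?_, ?_, ?_, ?_, ?_⟩
  · rw [SimpleGraph.isNClique_iff] at hcl ⊢
    refine ⟨?_, by rw [Finset.card_insertNone, hcl.2]⟩
    rintro (_ | a) ha (_ | b) hb hab
    · exact absurd rfl hab
    · exact cone_none G b
    · exact cone_none' G a
    · rw [Finset.mem_coe, Finset.some_mem_insertNone] at ha hb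
      exact hcl.1 ha hb (fun h' => hab (by rw [h']))
  · exact Finset.some_mem_insertNone.2 hx
  · exact Finset.some_mem_insertNone.2 hz
  · exact Finset.some_mem_insertNone.2 hw
  · exact fun h' => hxz (Option.some_injective _ h')
  · exact fun h' => hxw (Option.some_injective _ h')
  · exact fun h' => hzw (Option.some_injective _ h')
  · rw [Finset.some_mem_insertNone]
    exact hy
  · exact hxy
  · exact fun c hc h' => force_cone hf c hc h'

theorem dirac_left {V₁ V₂ : Type} (G₁ : SimpleGraph V₁) (G₂ : SimpleGraph V₂)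
    {H₁ : Finset V₁} {H₂ : Finset V₂} (φ : H₁ ≃ H₂) (x₁ y₁ : V₁) (x₂ y₂ : V₂) {a b : V₁}
    (hab : G₁.Adj a b) (hs : s(a, b) ≠ s(x₁, y₁)) :
    (dirac G₁ G₂ φ x₁ y₁ x₂ y₂).Adj (left H₂ a) (left H₂ b) := by
  unfold dirac
  rw [SimpleGraph.sup_adj, SimpleGraph.sup_adj]
  left; left
  rw [SimpleGraph.map_adj]
  refine ⟨a, b, ?_, rfl, rfl⟩
  rw [SimpleGraph.deleteEdges_adj]
  exact ⟨hab, hs⟩

theorem dirac_right {V₁ V₂ : Type} (G₁ : SimpleGraph V₁) (G₂ : SimpleGraph V₂)
    {H₁ : Finset V₁} {H₂ : Finset V₂} (φ : H₁ ≃ H₂) (x₁ y₁ : V₁) (x₂ y₂ : V₂) {a b : V₂}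
    (hab : G₂.Adj a b) (hs : s(a, b) ≠ s(x₂, y₂)) :
    (dirac G₁ G₂ φ x₁ y₁ x₂ y₂).Adj (right φ a) (right φ b) := by
  unfold dirac
  rw [SimpleGraph.sup_adj, SimpleGraph.sup_adj]
  left; right
  rw [SimpleGraph.map_adj]
  refine ⟨a, b, ?_, rfl, rfl⟩
  rw [SimpleGraph.deleteEdges_adj]
  exact ⟨hab, hs⟩

theorem right_mem {V₁ V₂ : Type} {H₁ : Finset V₁} {H₂ : Finset V₂} (φ : H₁ ≃ H₂) (v : H₁) :
    right φ (φ v : V₂) = left H₂ (v : V₁) := by
  change rightFun φ (φ v : V₂) = Sum.inl (v : V₁)
  unfold rightFun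
  rw [dif_pos (φ v).2]
  simp

/-- The gluing argument. -/
theorem Gadget.not_preserves {n h : ℕ} (hg : Gadget n h) : ¬ Preserves (n + 1) h := by
  classical
  intro hp
  obtain ⟨V, hV, G, H, x, y, z, w, hcr, hcl, hx, hz, hw, hxz, hxw, hzw, hy, hxy, hf⟩ := hg
  have hcrit := hcr.isCritical
  have hD := hp V V G G hcrit hcrit H H hcl hcl (Equiv.refl _) ⟨x, hx⟩ ⟨x, hx⟩ y y rfl hy hy hxy hxy
  set D := dirac G G (Equiv.refl {a // a ∈ H}) x y x y with hDdef
  have hrz : right (Equiv.refl {a // a ∈ H}) z = left H z := right_mem (Equiv.refl _) ⟨z, hz⟩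
  have hrw : right (Equiv.refl {a // a ∈ H}) w = left H w := right_mem (Equiv.refl _) ⟨w, hw⟩
  have hrx : right (Equiv.refl {a // a ∈ H}) x = left H x := right_mem (Equiv.refl _) ⟨x, hx⟩
  have hzwadj : G.Adj z w := hcl.1 hz hw hzw
  have hzwne : s(z, w) ≠ s(x, y) := by
    intro h'
    rcases Sym2.eq_iff.1 h' with ⟨h1, h2⟩ | ⟨h1, h2⟩
    · exact hxz h1.symm
    · exact hxw h2.symm
  have hyy : D.Adj (left H y) (right (Equiv.refl {a // a ∈ H}) y) := by
    rw [hDdef]
    unfold dirac
    rw [SimpleGraph.sup_adj]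
    right
    rw [SimpleGraph.edge_adj]
    refine ⟨Or.inl ⟨rfl, rfl⟩, ?_⟩
    change (Sum.inl y : Glued V H) ≠ rightFun _ y
    unfold rightFun
    rw [dif_neg hy]
    simp
  -- the graph without the edge `zw`
  let G' : D.Subgraph := (⊤ : D.Subgraph).deleteEdges {s(left H z, left H w)}
  have hG' : G' ≠ ⊤ := by
    intro h'
    have h1 : (⊤ : D.Subgraph).Adj (left H z) (left H w) := by
      rw [SimpleGraph.Subgraph.top_adj]
      exact dirac_left G G (Equiv.refl _) x y x y hzwadj hzwne
    rw [← h'] at h1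
    rw [SimpleGraph.Subgraph.deleteEdges_adj] at h1
    exact h1.2 rfl
  have hlt := hD.2 G' hG'
  have hcol : G'.coe.Colorable n := by
    rw [← SimpleGraph.chromaticNumber_le_iff_colorable]
    have : G'.coe.chromaticNumber < ((n + 1 : ℕ) : ℕ∞) := hlt
    rw [Nat.cast_succ] at this
    exact Order.le_of_lt_add_one this
  obtain ⟨c0, hc0⟩ := (col_iff _).2 hcol
  let c : Glued V H → Fin n := fun v => c0 ⟨v, trivial⟩
  have hc : ∀ a b, D.Adj a b → s(a, b) ≠ s(left H z, left H w) → c a ≠ c b := by
    intro a b hab hs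
    apply hc0
    change G'.Adj a b
    rw [SimpleGraph.Subgraph.deleteEdges_adj, SimpleGraph.Subgraph.top_adj]
    exact ⟨hab, hs⟩
  -- the two restrictions
  let c1 : V → Fin n := fun v => c (left H v)
  let c2 : V → Fin n := fun v => c (right (Equiv.refl {a // a ∈ H}) v)
  have h1 : ∀ a b, G.Adj a b → s(a, b) ≠ s(x, y) → s(a, b) ≠ s(z, w) → c1 a ≠ c1 b := by
    intro a b hab hs1 hs2
    apply hc _ _ (dirac_left G G (Equiv.refl _) x y x y hab hs1)
    intro h'
    apply hs2
    rcases Sym2.eq_iff.1 h' with ⟨h1, h2⟩ | ⟨h1, h2⟩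
    · rw [(left H).injective h1, (left H).injective h2]
    · rw [(left H).injective h1, (left H).injective h2, Sym2.eq_swap]
  have h2 : ∀ a b, G.Adj a b → s(a, b) ≠ s(x, y) → s(a, b) ≠ s(z, w) → c2 a ≠ c2 b := by
    intro a b hab hs1 hs2
    apply hc _ _ (dirac_right G G (Equiv.refl _) x y x y hab hs1)
    rw [← hrz, ← hrw]
    intro h'
    apply hs2
    rcases Sym2.eq_iff.1 h' with ⟨h1, h2⟩ | ⟨h1, h2⟩
    · rw [(right _).injective h1, (right _).injective h2]
    · rw [(right _).injective h1, (right _).injective h2, Sym2.eq_swap]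
  have hz12 : c2 z = c1 z := by
    change c _ = c _
    rw [hrz]
  have hw12 : c2 w = c1 w := by
    change c _ = c _
    rw [hrw]
  have hx12 : c2 x = c1 x := by
    change c _ = c _
    rw [hrx]
  have hyne : c1 y ≠ c2 y := by
    apply hc _ _ hyy
    intro h'
    rcases Sym2.eq_iff.1 h' with ⟨h1, h2⟩ | ⟨h1, h2⟩
    · have := (left H).injective h1
      exact hy (this ▸ hz)
    · have := (left H).injective h1
      exact hy (this ▸ hw)
  by_cases hzwc : c1 z = c1 w
  · have e1 := hf c1 h1 hzwc
    have e2 := hf c2 h2 (by rw [hz12, hw12]; exact hzwc)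
    apply hyne
    rw [e1, e2, hz12]
  · -- then both restrictions are proper without the edge `xy`
    have e1 : c1 x = c1 y := by
      by_contra hne
      apply hcr.not_col
      refine ⟨c1, fun a b hab => ?_⟩
      by_cases hs1 : s(a, b) = s(x, y)
      · rcases Sym2.eq_iff.1 hs1 with ⟨h3, h4⟩ | ⟨h3, h4⟩
        · rw [h3, h4]
          exact hne
        · rw [h3, h4]
          exact fun h' => hne h'.symm
      · by_cases hs2 : s(a, b) = s(z, w)
        · rcases Sym2.eq_iff.1 hs2 with ⟨h3, h4⟩ | ⟨h3, h4⟩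
          · rw [h3, h4]
            exact hzwc
          · rw [h3, h4]
            exact fun h' => hzwc h'.symm
        · exact h1 a b hab hs1 hs2
    have e2 : c2 x = c2 y := by
      by_contra hne
      apply hcr.not_col
      refine ⟨c2, fun a b hab => ?_⟩
      by_cases hs1 : s(a, b) = s(x, y)
      · rcases Sym2.eq_iff.1 hs1 with ⟨h3, h4⟩ | ⟨h3, h4⟩
        · rw [h3, h4]
          exact hne
        · rw [h3, h4]
          exact fun h' => hne h'.symm
      · by_cases hs2 : s(a, b) = s(z, w)
        · rcases Sym2.eq_iff.1 hs2 with ⟨h3, h4⟩ | ⟨h3, h4⟩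
          · rw [h3, h4, hz12, hw12]
            exact hzwc
          · rw [h3, h4, hz12, hw12]
            exact fun h' => hzwc h'.symm
        · exact h2 a b hab hs1 hs2
    apply hyne
    rw [← e1, ← e2, hx12]

end Pool.Agent.DiracHajos
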